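import Mathlib

set_option autoImplicit false
set_option linter.unusedSectionVars false

namespace Pool.Agent.H.MP_c23f48_an
open Filter Set Topology Complex Polynomial

variable {V X' : Type*} [AddCommGroup V] (θ : X' → V →+ ℝ)

def PD (φ : V → ℂ) : Prop :=
  ∀ (ι : Type) [Fintype ι] (c : ι → ℂ) (a : ι → V),
    (∀ x, 0 ≤ (∑ i, c i * exp (θ x (a i) * I)).re) → 0 ≤ (∑ i, c i * φ (a i)).re

def T (h : V) (φ : V → ℂ) (a : V) : ℂ := 2 * φ a - φ (a + h) - φ (a - h)

variable {θ}

lemma PD.four {φ : V → ℂ} (h : PD θ φ) (c0 c1 c2 c3 : ℂ) (a b d : V)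
    (hx : ∀ x, 0 ≤ (c0 + c1 * exp (θ x a * I) + c2 * exp (θ x b * I) + c3 * exp (θ x d * I)).re) :
    0 ≤ (c0 * φ 0 + c1 * φ a + c2 * φ b + c3 * φ d).re := by
  have := h (Fin 4) ![c0, c1, c2, c3] ![0, a, b, d] fun x => by
    simpa [Fin.sum_univ_four, -add_re, -mul_re] using hx x
  simpa [Fin.sum_univ_four, -add_re, -mul_re] using this

lemma PD.norm {φ : V → ℂ} (h : PD θ φ) (a : V) : ‖φ a‖ ≤ (φ 0).re := by
  obtain ⟨z, z1, z2⟩ := Complex.exists_norm_eq_mul_self (φ a)
  have := h.four 1 (-z) 0 0 a a a fun x => by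
    have : (z * exp (θ x a * I)).re ≤ 1 := (re_le_norm _).trans (by simp [z1, norm_exp_ofReal_mul_I])
    simp only [neg_mul, zero_mul, add_zero, add_re, one_re, neg_re]
    linarith
  simp only [neg_mul, zero_mul, add_zero, add_re, one_mul, neg_re, ← z2, ofReal_re] at this
  linarith

lemma PD.nn {φ : V → ℂ} (h : PD θ φ) : 0 ≤ (φ 0).re := (norm_nonneg _).trans (h.norm 0)

lemma PD.sub {φ : V → ℂ} (h : PD θ φ) (a b : V) :
    (φ 0).re - (φ (a - b)).re ≤ 2 * ((φ 0).re - (φ a).re) + 2 * ((φ 0).re - (φ b).re) := by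
  have := h.four 3 (-2) (-2) 1 a b (a - b) fun x => by
    have e : (3 + -2 * exp (θ x a * I) + -2 * exp (θ x b * I) + 1 * exp (θ x (a - b) * I)).re =
        3 - 2 * Real.cos (θ x a) - 2 * Real.cos (θ x b) + Real.cos (θ x (a - b)) := by
      simp [exp_ofReal_mul_I_re, -map_sub]; ring
    rw [e, map_sub, Real.cos_sub]
    nlinarith [sq_nonneg (2 - Real.cos (θ x a) - Real.cos (θ x b)),
      sq_nonneg (Real.sin (θ x a) + Real.sin (θ x b)), Real.sin_sq_add_cos_sq (θ x a),
      Real.sin_sq_add_cos_sq (θ x b)]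
  simp at this
  linarith

lemma PD.mul {φ : V → ℂ} (h : PD θ φ) (p q : ℝ) (hq : 2 * |q| ≤ p) (v : V) :
    PD θ fun a => p * φ a + q * φ (a + v) + q * φ (a - v) := by
  intro ι _ c a hx
  have := h (ι ⊕ ι ⊕ ι) (Sum.elim (fun i => c i * p) (Sum.elim (fun i => c i * q) fun i => c i * q))
    (Sum.elim a (Sum.elim (fun i => a i + v) fun i => a i - v)) fun x => by
      have e : ∀ i, c i * p * exp (θ x (a i) * I) + (c i * q * exp (θ x (a i + v) * I) +
          c i * q * exp (θ x (a i - v) * I)) =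
          ((p + 2 * q * Real.cos (θ x v) : ℝ) : ℂ) * (c i * exp (θ x (a i) * I)) := fun i => by
        have := Complex.two_cos (θ x v)
        rw [map_add, map_sub]
        push_cast
        rw [add_mul, sub_mul, exp_add, sub_eq_add_neg, exp_add, ← neg_mul]
        linear_combination (-(q : ℂ) * (c i * exp (θ x (a i) * I))) * this
      simp only [Fintype.sum_sum_type, Sum.elim_inl, Sum.elim_inr, ← Finset.sum_add_distrib, e,
        ← Finset.mul_sum, re_ofReal_mul]
      refine mul_nonneg ?_ (hx x)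
      have : |q * Real.cos (θ x v)| ≤ |q| := by
        rw [abs_mul]; exact mul_le_of_le_one_right (abs_nonneg _) (Real.abs_cos_le_one _)
      linarith [neg_abs_le (q * Real.cos (θ x v))]
  simp only [Fintype.sum_sum_type, Sum.elim_inl, Sum.elim_inr, ← Finset.sum_add_distrib] at this
  refine this.trans (le_of_eq (congrArg _ (Finset.sum_congr rfl fun i _ => by ring)))

lemma PD.dT {φ : V → ℂ} (h : PD θ φ) (v : V) : PD θ (T v φ) := by
  have := h.mul 2 (-1) (by simp) v
  convert this using 2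
  simp [T]; ring

lemma PD.smul {φ : V → ℂ} (h : PD θ φ) {p : ℝ} (hp : 0 ≤ p) : PD θ fun a => p * φ a := by
  simpa using h.mul p 0 (by simpa using hp) 0

lemma PD.add {φ ψ : V → ℂ} (h : PD θ φ) (k : PD θ ψ) : PD θ fun a => φ a + ψ a := by
  intro ι _ c a hx
  simp only [mul_add, Finset.sum_add_distrib, add_re]
  exact add_nonneg (h ι c a hx) (k ι c a hx)

lemma PD.lim {φ : ℕ → V → ℂ} {ψ : V → ℂ} (h : ∀ᶠ k in atTop, PD θ (φ k))
    (k : ∀ a, Tendsto (fun k => φ k a) atTop (𝓝 (ψ a))) : PD θ ψ := by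
  intro ι _ c a hx
  exact ge_of_tendsto ((continuous_re.tendsto _).comp
    (tendsto_finsetSum _ fun i _ => (k (a i)).const_mul (c i))) (h.mono fun k hk => hk ι c a hx)

lemma bddY {g : V → ℂ} {C : ℝ} (hb : ∀ a, ‖g a‖ ≤ C) {h : V} (hT : ∀ a, T h g a = 0) (a : V) :
    g (a + h) = g a := by
  have e : ∀ k : ℕ, g (a + k • h + h) - g (a + k • h) = g (a + h) - g a := fun k => by
    induction k with
    | zero => simp
    | succ k ih =>
      have := hT (a + k • h + h)
      rw [T, add_sub_cancel_right] at this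
      rw [succ_nsmul, ← add_assoc]
      linear_combination ih - this
  have e2 : ∀ k : ℕ, g (a + k • h) - g a = k * (g (a + h) - g a) := fun k => by
    induction k with
    | zero => simp
    | succ k ih =>
      rw [succ_nsmul, ← add_assoc]; push_cast
      linear_combination ih + e k
  by_contra hh
  have h0 : 0 < ‖g (a + h) - g a‖ := norm_pos_iff.2 (sub_ne_zero.2 hh)
  obtain ⟨k, hk⟩ := exists_nat_gt (2 * C / ‖g (a + h) - g a‖)
  rw [div_lt_iff₀ h0] at hk
  have := norm_sub_le (g (a + k • h)) (g a)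
  rw [e2, norm_mul, Complex.norm_natCast] at this
  linarith [hb (a + k • h), hb a]

lemma PD.inv {φ ψ : V → ℂ} (h : PD θ φ) {v : V} (k : PD θ fun a => ψ a - T v φ a)
    (hψ : ∀ a, ψ (a + v) = ψ a) (a : V) : φ (a + v) = φ a := by
  have h1 := (k.dT v).nn
  have h2 := hψ (0 - v)
  have h3 := hψ 0
  rw [sub_add_cancel] at h2
  have e : T v (fun a => ψ a - T v φ a) 0 =
      - T v (T v φ) 0 := by
    have e1 : T v (T v φ) 0 = 2 * T v φ 0 - T v φ (0 + v) - T v φ (0 - v) := rfl
    rw [e1, T, h3, ← h2]; ring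
  rw [e, neg_re] at h1
  have h4 := bddY (h.dT v).norm fun a => norm_le_zero_iff.1 ((((h.dT v).dT v).norm a).trans
    (by linarith))
  have h5 := bddY (g := fun a => φ (a + v) - φ a) (C := 2 * (φ 0).re) (h := v)
    (fun a => (norm_sub_le _ _).trans (by linarith [h.norm a, h.norm (a + v)])) fun a => by
      have := h4 a
      simp only [T, add_sub_cancel_right, sub_add_cancel] at this ⊢
      linear_combination this
  refine bddY h.norm (fun a => ?_) a
  have := h5 (a - v)
  simp only [T, sub_add_cancel] at this ⊢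
  linear_combination -this

lemma poly1 (p : ℂ[X]) : ∃ r : ℂ[X], (∀ t, 2 * p.eval 0 - p.eval t - p.eval (-t) =
    -(t ^ 2 * (r.eval t + r.eval (-t)))) ∧
      (derivative (derivative p)).eval 0 = 2 * r.eval 0 := by
  obtain ⟨r, a, b, rfl⟩ : ∃ r a b, p = (r * X + C a) * X + C b :=
    ⟨p.divX.divX, _, _, by rw [divX_mul_X_add, divX_mul_X_add]⟩
  exact ⟨r, fun t => by simp; ring, by simp; ring⟩

lemma poly2 (G : ℂ[X][X]) : ∃ H : ℂ[X], ∀ s : ℂ,
    (G.map (evalRingHom (s ^ 2))).eval s = H.eval s := by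
  induction G using Polynomial.induction_on' with
  | add p q hp hq =>
    obtain ⟨a, ha⟩ := hp
    obtain ⟨b, hb⟩ := hq
    exact ⟨a + b, fun s => by simp [ha, hb]⟩
  | monomial n a => exact ⟨a.comp (X ^ 2) * X ^ n, fun s => by simp [eval_comp]⟩

end Pool.Agent.H.MP_c23f48_an
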