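import Pool.Agent.H.MP_c23f48_an.A

set_option autoImplicit false
set_option linter.unusedSectionVars false

namespace Pool.Agent.H.MP_c23f48_an
open Filter Set Topology Complex Polynomial

variable {V X' : Type*} [AddCommGroup V] [Module ℝ V] (θ : X' → V →+ ℝ) (O : Set V) (v w : V)

structure Inv (φ : V → ℂ) (P : V → ℂ[X]) : Prop where
  pd : PD θ φ
  eq : ∀ a ∈ O, φ a = (P a).eval 0
  z : (φ 0).re = ((P 0).eval 0).re
  cov : ∀ a (s : ℝ), P (a + s • v) = (P a).comp (X + C (s : ℂ))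
  reg : ∃ G : ℂ[X][X], ∀ l : ℝ, P (l • w) = G.map (evalRingHom (l : ℂ))

variable {θ O v w}

lemma curve {P : V → ℂ[X]} (cov : ∀ a (s : ℝ), P (a + s • v) = (P a).comp (X + C (s : ℂ)))
    (reg : ∃ G : ℂ[X][X], ∀ l : ℝ, P (l • w) = G.map (evalRingHom (l : ℂ))) :
    ∃ H : ℂ[X], H.eval 0 = (P 0).eval 0 ∧
      ∀ s : ℝ, (P (s ^ 2 • w + s • v)).eval 0 = H.eval (s : ℂ) := by
  obtain ⟨G, hG⟩ := reg
  obtain ⟨H, hH⟩ := poly2 G
  have : ∀ s : ℝ, (P (s ^ 2 • w + s • v)).eval 0 = H.eval (s : ℂ) := fun s => by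
    rw [cov, hG, ← hH]; simp [eval_comp]
  exact ⟨H, by simpa using (this 0).symm, this⟩

noncomputable def D (v : V) (φ : V → ℂ) (k : ℕ) (a : V) : ℂ :=
  ((4 ^ k : ℝ) : ℂ) * T (((1 / 2 : ℝ) ^ k) • v) φ a

lemma dmon {φ : V → ℂ} (h : PD θ φ) {k l : ℕ} (hl : k ≤ l) :
    PD θ fun a => D v φ l a - D v φ k a := by
  induction l, hl using Nat.le_induction with
  | base => simpa using h.smul le_rfl
  | succ l _ ih =>
    have := ih.add (((h.dT (((1 / 2 : ℝ) ^ (l + 1)) • v)).dT (((1 / 2 : ℝ) ^ (l + 1)) • v)).smul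
      (p := 4 ^ l) (by positivity))
    convert this using 2 with a
    have e : ((1 / 2 : ℝ) ^ l) • v = ((1 / 2 : ℝ) ^ (l + 1)) • v + ((1 / 2 : ℝ) ^ (l + 1)) • v := by
      rw [← add_smul]; congr 1; ring
    simp only [D, T, e, ← add_assoc, ← sub_sub, add_sub_cancel_right, sub_add_cancel]
    push_cast; ring

lemma half : Tendsto (fun k : ℕ => (1 / 2 : ℝ) ^ k) atTop (𝓝[≠] 0) :=
  tendsto_nhdsWithin_iff.2 ⟨tendsto_pow_atTop_nhds_zero_of_lt_one (by norm_num) (by norm_num),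
    .of_forall fun k => by simp⟩

lemma evc (r : ℂ[X]) : Continuous fun s : ℝ => r.eval (s : ℂ) :=
  r.continuous.comp continuous_ofReal

variable (h1 : ∀ a ∈ O, ∀ᶠ s : ℝ in 𝓝 0, a + s • v ∈ O)
  (h2 : ∀ᶠ s : ℝ in 𝓝[≠] 0, s ^ 2 • w + s • v ∈ O)

include h2 in
lemma dbd {φ : V → ℂ} {P : V → ℂ[X]} (h : Inv θ O v w φ P) :
    ∃ B, ∀ᶠ k in atTop, (D v φ k 0).re ≤ B := by
  obtain ⟨H, H0, hH⟩ := curve h.cov h.reg
  obtain ⟨r, hr, -⟩ := poly1 H
  have t1 : Tendsto (fun k : ℕ => (1 / 2 : ℝ) ^ (k + 1)) atTop (𝓝[≠] 0) :=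
    half.comp (tendsto_add_atTop_nat 1)
  have t2 : Tendsto (fun k : ℕ => -(1 / 2 : ℝ) ^ (k + 1)) atTop (𝓝[≠] 0) :=
    tendsto_nhdsWithin_iff.2 ⟨by simpa using (tendsto_nhdsWithin_iff.1 t1).1.neg,
      .of_forall fun k => by simp⟩
  have t3 : Continuous fun s : ℝ => -(r.eval (s : ℂ) + r.eval (-(s : ℂ))).re :=
    (continuous_re.comp ((evc r).add (r.continuous.comp continuous_ofReal.neg))).neg
  refine ⟨-(r.eval ((0 : ℝ) : ℂ) + r.eval (-((0 : ℝ) : ℂ))).re + 1, ?_⟩
  filter_upwards [t1.eventually h2, t2.eventually h2, ((t3.tendsto 0).comp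
    (tendsto_nhdsWithin_iff.1 t1).1).eventually (gt_mem_nhds (lt_add_one _))] with k k1 k2 k3
  refine le_trans ?_ k3.le
  generalize hs : (1 / 2 : ℝ) ^ (k + 1) = s at k1 k2
  have e1 := h.eq _ k1
  have e2 := h.eq _ k2
  rw [hH] at e1 e2
  have e3 := h.pd.sub (s ^ 2 • w + s • v) ((-s) ^ 2 • w + (-s) • v)
  have e4 := h.pd.sub ((-s) ^ 2 • w + (-s) • v) (s ^ 2 • w + s • v)
  have e5 : (1 / 2 : ℝ) ^ k = 2 * s := by rw [← hs]; ring
  have e6 : s ^ 2 • w + s • v - ((-s) ^ 2 • w + (-s) • v) = 0 + (2 * s) • v := by module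
  have e7 : (-s) ^ 2 • w + (-s) • v - (s ^ 2 • w + s • v) = 0 - (2 * s) • v := by module
  have e8 := congrArg re (hr s)
  have e9 : (4 : ℝ) ^ k * (4 * s ^ 2) = 1 := by
    rw [show 4 * s ^ 2 = (2 * s) ^ 2 by ring, ← e5, ← pow_mul, mul_comm k, pow_mul, ← mul_pow]
    norm_num
  rw [e6, e1, e2] at e3
  rw [e7, e1, e2] at e4
  rw [H0, neg_re, ← ofReal_pow, re_ofReal_mul] at e8
  simp only [D, T, e5, re_ofReal_mul, Function.comp, hs, sub_re, ofReal_neg] at *
  have z := h.z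
  have e10 : (2 * φ 0).re = 2 * (φ 0).re := by simp
  have e11 : (2 * (P 0).eval 0).re = 2 * ((P 0).eval 0).re := by simp
  refine (mul_le_mul_of_nonneg_left (show _ ≤ 4 * s ^ 2 * -(r.eval (s : ℂ) +
    r.eval (-(s : ℂ))).re by linarith) (by positivity)).trans (le_of_eq ?_)
  rw [← mul_assoc, e9, one_mul]

include h1 h2

lemma step {φ : V → ℂ} {P : V → ℂ[X]} (h : Inv θ O v w φ P) :
    ∃ ψ, Inv θ O v w ψ (fun a => -derivative (derivative (P a))) ∧
      PD θ fun a => ψ a - T v φ a := by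
  obtain ⟨B, hB⟩ := dbd h2 h
  have hn : ∀ k l, k ≤ l → ∀ a, ‖D v φ l a - D v φ k a‖ ≤ (D v φ l 0).re - (D v φ k 0).re :=
    fun k l hl a => (dmon h.pd hl).norm a
  have hm : Monotone fun k => (D v φ k 0).re := fun k l hl =>
    sub_nonneg.1 ((norm_nonneg _).trans (hn k l hl 0))
  have hb : BddAbove (range fun k => (D v φ k 0).re) := by
    obtain ⟨K, hK⟩ := eventually_atTop.1 hB
    exact ⟨B, by rintro _ ⟨k, rfl⟩; exact (hm (le_max_left k K)).trans (hK _ (le_max_right _ _))⟩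
  have hc := (tendsto_atTop_ciSup hm hb).cauchySeq
  have : ∀ a, ∃ z, Tendsto (fun k => D v φ k a) atTop (𝓝 z) := fun a =>
    cauchySeq_tendsto_of_complete (Metric.cauchySeq_iff'.2 fun ε hε => by
      obtain ⟨N, hN⟩ := Metric.cauchySeq_iff'.1 hc ε hε
      exact ⟨N, fun n hn' => by
        rw [dist_eq_norm]
        exact ((hn N n hn' a).trans (le_abs_self _)).trans_lt (hN n hn')⟩)
  choose ψ hψ using this
  have p1 : ∀ k, PD θ fun a => ψ a - D v φ k a := fun k =>
    PD.lim ((eventually_ge_atTop k).mono fun l hl => dmon h.pd hl) fun a => (hψ a).sub_const _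
  have p0 : ∀ k, PD θ (D v φ k) := fun k => (h.pd.dT _).smul (by positivity)
  have q1 : ∀ a ∈ O, ψ a = (-derivative (derivative (P a))).eval 0 := fun a ha => by
    obtain ⟨r, hr, r2⟩ := poly1 (P a)
    have t1 := (tendsto_nhdsWithin_iff.1 half).1
    have t3 : Continuous fun s : ℝ => -(r.eval (s : ℂ) + r.eval (-(s : ℂ))) :=
      ((evc r).add (r.continuous.comp continuous_ofReal.neg)).neg
    refine (tendsto_nhds_unique (hψ a) (((t3.tendsto 0).comp t1).congr' ?_)).trans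
      (by rw [eval_neg, r2]; simp; ring)
    filter_upwards [t1.eventually (h1 a ha), (show Tendsto (fun k : ℕ => -(1 / 2 : ℝ) ^ k) _ (𝓝 0) by
      simpa only [neg_zero] using t1.neg).eventually (h1 a ha)] with k k1 k2
    have e1 := h.eq _ k1
    have e2 := h.eq _ k2
    rw [h.cov] at e1 e2
    rw [neg_smul, ← sub_eq_add_neg] at e2
    have e9 : (((4 : ℝ) ^ k : ℝ) : ℂ) * (((1 / 2 : ℝ) ^ k : ℝ) : ℂ) ^ 2 = 1 := by
      push_cast
      rw [← pow_mul, mul_comm k, pow_mul, ← mul_pow]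
      norm_num
    simp only [eval_comp, eval_add, eval_X, eval_C, zero_add, ofReal_neg] at e1 e2
    rw [Function.comp, D, T, e1, e2, h.eq a ha, hr]
    linear_combination (r.eval (((1 / 2 : ℝ) ^ k : ℝ) : ℂ) + r.eval (-((1 / 2 : ℝ) ^ k : ℝ) : ℂ)) * e9
  have cov : ∀ a (s : ℝ), -derivative (derivative (P (a + s • v))) =
      (-derivative (derivative (P a))).comp (X + C (s : ℂ)) := fun a s => by
    simp [h.cov, derivative_comp]
  have reg : ∃ G : ℂ[X][X], ∀ l : ℝ, -derivative (derivative (P (l • w))) =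
      G.map (evalRingHom (l : ℂ)) := by
    obtain ⟨G, hG⟩ := h.reg
    exact ⟨-derivative (derivative G), fun l => by simp [hG]⟩
  refine ⟨ψ, ⟨PD.lim (.of_forall p0) hψ, q1, ?_, cov, reg⟩, by simpa [D] using p1 0⟩
  obtain ⟨H, H0, hH⟩ := curve h.cov h.reg
  obtain ⟨H', H0', hH'⟩ := curve (P := fun a => -derivative (derivative (P a))) cov reg
  rw [← H0']
  have key : ∀ k, |(ψ 0).re - (H'.eval 0).re| ≤ 2 * ((ψ 0).re - (D v φ k 0).re) := fun k => by
    have c1 : Continuous fun s : ℝ => |(ψ 0).re - (H'.eval (s : ℂ)).re| :=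
      (continuous_const.sub (continuous_re.comp (evc H'))).abs
    have c2 : Continuous fun s : ℝ => 4 ^ k * 4 * ((H.eval 0).re - (H.eval (s : ℂ)).re) +
        2 * ((ψ 0).re - (D v φ k 0).re) :=
      (continuous_const.mul (continuous_const.sub (continuous_re.comp (evc H)))).add
        continuous_const
    have := le_of_tendsto_of_tendsto ((c1.tendsto 0).mono_left (nhdsWithin_le_nhds (s := {0}ᶜ)))
      ((c2.tendsto 0).mono_left nhdsWithin_le_nhds) (h2.mono fun s hs => by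
        simp only
        rw [← hH', ← q1 _ hs, ← hH, ← h.eq _ hs, H0, ← h.z]
        generalize s ^ 2 • w + s • v = a
        have n1 := (abs_re_le_norm _).trans ((p1 k).norm a)
        have n2 := (re_le_norm _).trans ((p0 k).norm a)
        have n3 := (re_le_norm _).trans
          ((h.pd.mul 2 1 (by simp) (((1 / 2 : ℝ) ^ k) • v)).norm a)
        have n4 : (D v φ k 0).re - (D v φ k a).re ≤ 4 ^ k * (4 * ((φ 0).re - (φ a).re)) := by
          simp only [D, re_ofReal_mul, ← mul_sub, T] at n3 ⊢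
          refine mul_le_mul_of_nonneg_left ?_ (by positivity)
          simp at n3 ⊢
          linarith
        simp only [sub_re, abs_le] at n1 ⊢
        constructor <;> linarith [n1.1, n1.2])
    simpa using this
  have := ge_of_tendsto' ((((continuous_re.tendsto _).comp (hψ 0)).const_sub (ψ 0).re).const_mul 2)
    key
  simp only [sub_self, mul_zero, abs_nonpos_iff] at this
  linarith

lemma ind (N : ℕ) : ∀ {φ : V → ℂ} {P : V → ℂ[X]}, Inv θ O v w φ P →
    (fun p : ℂ[X] => -derivative (derivative p))^[N] (P 0) = 0 → ∀ a, φ (a + v) = φ a := by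
  induction N with
  | zero =>
    intro φ P h h0 a
    have : ∀ a, φ a = 0 := fun a => norm_le_zero_iff.1 ((h.pd.norm a).trans (by
      rw [h.z, show P 0 = 0 from h0]; simp))
    rw [this, this]
  | succ N ih =>
    intro φ P h h0
    obtain ⟨ψ, k1, k2⟩ := step h1 h2 h
    exact h.pd.inv k2 (ih k1 h0)

omit h1 h2 in
lemma nil (p : ℂ[X]) : ∃ N, (fun p : ℂ[X] => -derivative (derivative p))^[N] p = 0 := by
  have : ∀ N (p : ℂ[X]), p.natDegree < N + 1 →
      (fun p : ℂ[X] => -derivative (derivative p))^[N + 1] p = 0 := fun N => by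
    induction N with
    | zero =>
      intro p hp
      rw [eq_C_of_natDegree_eq_zero (show p.natDegree = 0 by omega)]
      simp
    | succ N ih =>
      intro p hp
      rw [Function.iterate_succ_apply]
      refine ih _ ?_
      have a := natDegree_derivative_le p
      have b := natDegree_derivative_le (derivative p)
      rw [natDegree_neg]; omega
  exact ⟨_, this _ p (Nat.lt_succ_self _)⟩

lemma fin {φ : V → ℂ} {P : V → ℂ[X]} (h : Inv θ O v w φ P) (a : V) : φ (a + v) = φ a := by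
  obtain ⟨N, hN⟩ := nil (P 0)
  exact ind h1 h2 N h hN a

omit h1 h2 in
lemma hb {S B : Type*} [NormedAddCommGroup B] [NormedSpace ℂ B] (u : S → B) (t : S → ℂ)
    (h : ∀ c : S →₀ ℂ, ‖c.sum fun s z => z * t s‖ ≤ ‖c.sum fun s z => z • u s‖) :
    ∃ L : B →L[ℂ] ℂ, (∀ f, ‖L f‖ ≤ ‖f‖) ∧ ∀ s, L (u s) = t s := by
  let A := Finsupp.linearCombination ℂ u
  let F := Finsupp.linearCombination ℂ t
  have k : ∀ c, ‖F c‖ ≤ ‖A c‖ := h
  obtain ⟨σ, hσ⟩ := A.rangeRestrict.exists_rightInverse_of_surjective A.range_rangeRestrict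
  have e : ∀ y, A (σ y) = y := fun y => congrArg Subtype.val (LinearMap.congr_fun hσ y)
  obtain ⟨L, l1, l2⟩ := exists_extension_norm_eq (LinearMap.range A)
    ((F ∘ₗ σ).mkContinuous 1 fun y => by simpa [e] using k (σ y))
  refine ⟨L, fun f => (L.le_of_opNorm_le (l2.le.trans
    (LinearMap.mkContinuous_norm_le _ zero_le_one _)) f).trans (by simp), fun s => ?_⟩
  have a1 : A (Finsupp.single s 1) = u s := by simp [A]
  have := k (σ ⟨u s, _, a1⟩ - Finsupp.single s 1)
  rw [map_sub, map_sub, e, a1, sub_self, norm_zero, norm_le_zero_iff, sub_eq_zero] at this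
  exact (l1 ⟨u s, _, a1⟩).trans (this.trans (by simp [F]))

omit h1 h2 in
lemma repos {Y : Type*} [TopologicalSpace Y] (L : BoundedContinuousFunction Y ℂ →L[ℂ] ℂ)
    (h : ∀ f, ‖L f‖ ≤ ‖f‖) (h1 : L 1 = 1) (f : BoundedContinuousFunction Y ℂ)
    (hf : ∀ x, 0 ≤ (f x).re) : 0 ≤ (L f).re := by
  refine neg_nonpos.1 (le_of_forall_pos_le_add fun ε hε => ?_)
  set N := ‖f‖ ^ 2 + 1 with hN
  have N0 : 0 < N := by positivity
  set t := ε / N with ht
  have t0 : 0 < t := by positivity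
  have : ‖1 - (t : ℂ) • f‖ ≤ 1 + t * ε := by
    refine (BoundedContinuousFunction.norm_le (by positivity)).2 fun x => ?_
    refine abs_le_of_sq_le_sq' ?_ (by positivity) |>.2
    have a1 : ‖f x‖ ^ 2 ≤ ‖f‖ ^ 2 := pow_le_pow_left₀ (norm_nonneg _) (f.norm_coe_le_norm x) 2
    have a2 : t * N = ε := by rw [ht]; field_simp
    rw [Complex.sq_norm, normSq_apply] at a1 ⊢
    simp
    have := mul_nonneg t0.le (hf x)
    have := mul_le_mul_of_nonneg_left a1 (sq_nonneg t)
    have := mul_pos t0 hε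
    nlinarith [sq_nonneg (t * ε), sq_nonneg t]
  have b := (re_le_norm _).trans ((h _).trans this)
  simp [h1] at b
  nlinarith

end Pool.Agent.H.MP_c23f48_an
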