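import Pool.Agent.H.MP_c23f48_an.B

set_option autoImplicit false
set_option linter.unusedSectionVars false

namespace Pool.Agent.H.MP_c23f48_an
open Filter Set Topology Complex Polynomial Matrix

variable {n : ℕ}

noncomputable def ev (τ : MvPolynomial (Fin n) ℂ) (ξ : Fin n → ℝ) : ℂ :=
  MvPolynomial.eval (fun i => (ξ i : ℂ)) τ

lemma evA (f : Fin n → ℂ[X]) (τ : MvPolynomial (Fin n) ℂ) (t : ℂ) :
    (MvPolynomial.aeval f τ).eval t = MvPolynomial.eval (fun i => (f i).eval t) τ := by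
  induction τ using MvPolynomial.induction_on with
  | C a => simp
  | add p q hp hq => simp [hp, hq]
  | mul_X p i hp => simp [hp]

noncomputable def ln (τ : MvPolynomial (Fin n) ℂ) (v a : Fin n → ℝ) : ℂ[X] :=
  MvPolynomial.aeval (fun i => C (a i : ℂ) + C (v i : ℂ) * X) τ

lemma ln_ev (τ : MvPolynomial (Fin n) ℂ) (v a : Fin n → ℝ) (t : ℝ) :
    (ln τ v a).eval (t : ℂ) = ev τ (a + t • v) := by
  rw [ln, evA, ev]; congr 2; ext i; simp; ring

lemma ln_reg (τ : MvPolynomial (Fin n) ℂ) (v w a : Fin n → ℝ) :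
    ∃ G : ℂ[X][X], ∀ l : ℝ, ln τ v (l • w + a) = G.map (evalRingHom (l : ℂ)) := by
  induction τ using MvPolynomial.induction_on with
  | C a => exact ⟨C (C a), fun l => by simp [ln]⟩
  | add p q hp hq =>
    obtain ⟨a, ha⟩ := hp
    obtain ⟨b, hb⟩ := hq
    exact ⟨a + b, fun s => by rw [Polynomial.map_add, ← ha, ← hb, ln, map_add]; rfl⟩
  | mul_X p i hp =>
    obtain ⟨b, hb⟩ := hp
    refine ⟨b * (C (C (w i : ℂ) * X + C (a i : ℂ)) + C (C (v i : ℂ)) * X), fun s => ?_⟩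
    rw [Polynomial.map_mul, ← hb, ln, map_mul]
    simp [ln, mul_comm (C (s : ℂ))]

def th (x : Fin n → ℝ) : (Fin n → ℝ) →+ ℝ := ⟨⟨fun a => x ⬝ᵥ a, by simp⟩, by simp⟩

noncomputable def E (a : Fin n → ℝ) : BoundedContinuousFunction (Fin n → ℝ) ℂ :=
  BoundedContinuousFunction.ofNormedAddCommGroup (fun x => exp ((x ⬝ᵥ a : ℝ) * I))
    (by fun_prop) 1 fun x => (norm_exp_ofReal_mul_I _).le

variable {τ : MvPolynomial (Fin n) ℂ} {r : ℝ} (hr : 0 < r) {b : Fin n → ℝ} (h0 : b ⬝ᵥ b ≤ r ^ 2)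
  (h : ∀ (ι : Type) [Fintype ι] (c : ι → ℂ) (ξ : ι → Fin n → ℝ) (C : ℝ),
    (∀ j, ξ j ⬝ᵥ ξ j ≤ r ^ 2) → (∀ x, ‖∑ j, c j * exp ((x ⬝ᵥ ξ j : ℝ) * I)‖ ≤ C) →
    ∀ x, ‖∑ j, c j * ev τ (ξ j) * exp ((x ⬝ᵥ ξ j : ℝ) * I)‖ ≤ ‖ev τ b‖ * C)

include hr h0 h

lemma tang {v : Fin n → ℝ} (hv : b ⬝ᵥ v = 0) {ξ : Fin n → ℝ} (x1 : ξ ⬝ᵥ ξ < r ^ 2)
    (x2 : (ξ + v) ⬝ᵥ (ξ + v) < r ^ 2) : ev τ (ξ + v) = ev τ ξ := by
  by_cases hb0 : ev τ b = 0
  · have : ∀ ξ : Fin n → ℝ, ξ ⬝ᵥ ξ < r ^ 2 → ev τ ξ = 0 := fun ξ hξ => by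
      simpa [hb0] using h Unit (fun _ => 1) (fun _ => ξ) 1 (fun _ => hξ.le)
        (fun x => by simp [norm_exp_ofReal_mul_I]) 0
    rw [this _ x1, this _ x2]
  obtain ⟨L, l1, l2⟩ := hb (S := {a : Fin n → ℝ // (a + b) ⬝ᵥ (a + b) ≤ r ^ 2})
    (fun a => E a.1) (fun a => ev τ (a.1 + b) * (ev τ b)⁻¹) fun c => by
      have := h c.support (fun j => c j) (fun j => j.1.1 + b) ‖c.sum fun s z => z • E s.1‖
        (fun j => j.1.2) (fun x => by
          refine le_trans (le_of_eq ?_) (BoundedContinuousFunction.norm_coe_le_norm _ x)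
          rw [Finsupp.sum, BoundedContinuousFunction.sum_apply, ← Finset.sum_coe_sort c.support]
          simp only [dotProduct_add, ofReal_add, add_mul, exp_add, ← mul_assoc, ← Finset.sum_mul,
            norm_mul, norm_exp_ofReal_mul_I, mul_one]
          rfl) 0
      simp only [zero_dotProduct, ofReal_zero, zero_mul, exp_zero, mul_one] at this
      rw [Finsupp.sum, ← Finset.sum_coe_sort]
      simp only [← mul_assoc, ← Finset.sum_mul, norm_mul, norm_inv]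
      rwa [← div_eq_mul_inv, div_le_iff₀' (norm_pos_iff.2 hb0)]
  have e0 : L (E 0) = 1 := (l2 ⟨0, by simpa using h0⟩).trans (by simp [hb0])
  have e1 : (E 0 : BoundedContinuousFunction (Fin n → ℝ) ℂ) = 1 := by ext x; simp [E]
  set κ := v ⬝ᵥ v / r ^ 2 + 1 with hκ
  have vv : 0 ≤ v ⬝ᵥ v := dotProduct_self_star_nonneg v
  have κ0 : 0 < κ := by positivity
  have κ1 : κ * r ^ 2 = v ⬝ᵥ v + r ^ 2 := by rw [hκ]; field_simp
  have := fin (θ := th) (O := {a | (a + b) ⬝ᵥ (a + b) < r ^ 2}) (v := v) (w := -κ • b)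
    (φ := fun a => L (E a)) (P := fun a => ln τ v (a + b) * C (ev τ b)⁻¹)
    (fun a ha => (show Continuous fun s : ℝ => (a + s • v + b) ⬝ᵥ (a + s • v + b) by
      fun_prop).continuousAt.eventually_lt continuousAt_const (by simpa using ha))
    (by
      filter_upwards [self_mem_nhdsWithin, nhdsWithin_le_nhds
        ((show Continuous fun s : ℝ => s ^ 2 * κ by fun_prop).continuousAt.eventually_lt
          (continuousAt_const (y := (1 : ℝ))) (by simp))] with s s0 s1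
      have e : (s ^ 2 • -κ • b + s • v + b) ⬝ᵥ (s ^ 2 • -κ • b + s • v + b) =
          (1 - s ^ 2 * κ) ^ 2 * (b ⬝ᵥ b) + s ^ 2 * (v ⬝ᵥ v) := by
        simp only [add_dotProduct, dotProduct_add, smul_dotProduct, dotProduct_smul, hv,
          dotProduct_comm v b, smul_eq_mul]
        ring
      have s2 : 0 < s ^ 2 := by have : s ≠ 0 := s0; positivity
      have := mul_le_mul_of_nonneg_left h0 (sq_nonneg (1 - s ^ 2 * κ))
      have r2 : 0 < r ^ 2 := by positivity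
      have := mul_pos (mul_pos (mul_pos s2 κ0) (sub_pos.2 s1)) r2
      have := mul_pos s2 r2
      have e2 : s ^ 2 * (κ * r ^ 2) = s ^ 2 * (v ⬝ᵥ v + r ^ 2) := by rw [κ1]
      rw [e]
      nlinarith)
    ⟨fun ι _ c a hx => by
      have := repos L l1 (e1 ▸ e0) (∑ i, c i • E (a i)) fun x => by
        rw [BoundedContinuousFunction.sum_apply]; exact hx x
      simpa only [map_sum, map_smul, smul_eq_mul] using this,
    fun a ha => (l2 ⟨a, le_of_lt ha⟩).trans (by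
      have := ln_ev τ v (a + b) 0
      simp only [ofReal_zero, zero_smul, add_zero] at this
      simp [this]),
    by
      have := ln_ev τ v (0 + b) 0
      simp only [ofReal_zero, zero_smul, add_zero, zero_add] at this
      simp [e0, this, hb0],
    fun a s => by
      rw [mul_comp, C_comp]
      congr 1
      refine Polynomial.funext fun t => ?_
      simp only [eval_comp, ln, evA]
      congr 2; ext i; simp; ring,
    by
      obtain ⟨G, hG⟩ := ln_reg τ v (-κ • b) b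
      exact ⟨G * C (C (ev τ b)⁻¹), fun l => by simp only [hG]; simp⟩⟩ (ξ - b)
  have a1 := l2 ⟨ξ - b, by simpa using x1.le⟩
  have a2 := l2 ⟨ξ - b + v, by rw [show ξ - b + v + b = ξ + v by abel]; exact x2.le⟩
  simp only [sub_add_cancel, show ξ - b + v + b = ξ + v by abel] at a1 a2 this
  exact mul_right_cancel₀ (inv_ne_zero hb0) (a2.symm.trans (this.trans a1))

theorem main : ∃ (a : Fin n → ℝ) (ρ : ℂ[X]), ∀ ξ, ev τ ξ = ρ.eval ((a ⬝ᵥ ξ : ℝ) : ℂ) := by
  refine ⟨b, ln τ ((b ⬝ᵥ b)⁻¹ • b) 0, fun ξ => ?_⟩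
  rw [ln_ev, zero_add]
  set p := (b ⬝ᵥ ξ) • (b ⬝ᵥ b)⁻¹ • b with hp
  have hv : b ⬝ᵥ (ξ - p) = 0 := by
    by_cases hb : b ⬝ᵥ b = 0
    · simp [dotProduct_self_eq_zero.1 hb]
    · simp [hp, hb]
  have : ln τ ξ 0 = ln τ p 0 := by
    have t : ∀ y : Fin n → ℝ, ∀ᶠ s : ℝ in 𝓝 0, (s • y) ⬝ᵥ (s • y) < r ^ 2 := fun y =>
      (show Continuous fun s : ℝ => (s • y) ⬝ᵥ (s • y) by
        fun_prop).continuousAt.eventually_lt continuousAt_const (by simpa using pow_pos hr 2)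
    refine eq_of_infinite_eval_eq _ _ (Infinite.mono ?_
      ((infinite_of_mem_nhds _ ((t ξ).and (t p))).image ofReal_injective.injOn))
    rintro _ ⟨s, ⟨s1, s2⟩, rfl⟩
    have e : s • p + s • (ξ - p) = s • ξ := by module
    have := tang hr h0 h (v := s • (ξ - p)) (by simp [hv, -dotProduct_sub]) s2 (e ▸ s1)
    rw [mem_ofPred, ln_ev, ln_ev, zero_add, zero_add, ← this, e]
  have a1 := ln_ev τ ξ 0 1
  have a2 := ln_ev τ p 0 1
  rw [this, a2] at a1
  simpa using a1.symm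

end Pool.Agent.H.MP_c23f48_an
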